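import Pool.Agent.helper47.SPI.Spec

/-! # Project SPI (MP_f6e9a2_nt), row spi:GBS -/

set_option autoImplicit false

namespace Pool.Agent.SPI

open Finset Pool.Agent.helper85.PG

private theorem GBS_ft {p : ℕ} [NeZero p] (A : Finset (ZMod p)) (w : ZMod p → ℂ)
    (hw : ∀ a, ‖w a‖ ≤ 1) (t : ZMod p) : ‖ft A w t‖ ≤ A.card := by
  unfold ft
  refine (norm_sum_le _ _).trans ?_
  have h : ∀ a ∈ A, ‖w a * (ZMod.stdAddChar (t * a) : ℂ)‖ ≤ 1 := by
    intro a _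
    rw [norm_mul, AddChar.norm_apply, mul_one]
    exact hw a
  refine (Finset.sum_le_sum h).trans (le_of_eq ?_)
  simp

/-- the square of the norm on a window, summed over all windows -/
private theorem GBS_sum (hPLN : PLN_stmt) {p : ℕ} [Fact p.Prime] (A : Finset (ZMod p))
    (w : ZMod p → ℂ) (hw : ∀ a, ‖w a‖ ≤ 1) (h : ℕ) (c : ℕ → ZMod p) :
    ∑ t : ZMod p, ∑ y ∈ range h, ‖ft A w (t + c y)‖ ^ 2 ≤ (h : ℝ) * (p * A.card) := by
  rw [Finset.sum_comm]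
  have h1 : ∀ y ∈ range h, ∑ t : ZMod p, ‖ft A w (t + c y)‖ ^ 2 ≤ (p : ℝ) * A.card := by
    intro y _
    have h0 : ∑ t : ZMod p, ‖ft A w (t + c y)‖ ^ 2 = ∑ t : ZMod p, ‖ft A w t‖ ^ 2 :=
      Equiv.sum_comp (Equiv.addRight (c y)) (fun t => ‖ft A w t‖ ^ 2)
    rw [h0, hPLN p A w]
    refine mul_le_mul_of_nonneg_left ?_ (Nat.cast_nonneg p)
    have h2 : ∀ a ∈ A, ‖w a‖ ^ 2 ≤ 1 := fun a _ => pow_le_one₀ (norm_nonneg _) (hw a)
    refine (Finset.sum_le_sum h2).trans (le_of_eq ?_)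
    simp
  refine (Finset.sum_le_sum h1).trans (le_of_eq ?_)
  rw [Finset.sum_const, Finset.card_range, nsmul_eq_mul]

/-- counting bad points -/
private theorem GBS_bad {p : ℕ} [NeZero p] (D : Finset (ZMod p)) (h : ℕ) (c : ℕ → ZMod p) :
    ∑ t : ZMod p, (((range h).filter fun y => t + c y ∈ D).card : ℝ) = h * D.card := by
  have h1 : ∀ t : ZMod p, (((range h).filter fun y => t + c y ∈ D).card : ℝ) =
      ∑ y ∈ range h, if t + c y ∈ D then (1 : ℝ) else 0 := by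
    intro t
    rw [Finset.sum_boole]
  rw [Finset.sum_congr rfl fun t _ => h1 t, Finset.sum_comm]
  have h2 : ∀ y ∈ range h, ∑ t : ZMod p, (if t + c y ∈ D then (1 : ℝ) else 0) = D.card := by
    intro y _
    have h0 : ∑ t : ZMod p, (if t + c y ∈ D then (1 : ℝ) else 0) =
        ∑ t : ZMod p, (if t ∈ D then (1 : ℝ) else 0) :=
      Equiv.sum_comp (Equiv.addRight (c y)) (fun t => if t ∈ D then (1 : ℝ) else 0)
    rw [h0, Finset.sum_boole, Finset.filter_mem_eq_inter, Finset.univ_inter]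
  rw [Finset.sum_congr rfl h2, Finset.sum_const, Finset.card_range, nsmul_eq_mul]

theorem GBS (hQRR : QRR_stmt) (hRRB : RRB_stmt) (hPLN : PLN_stmt) : GBS_stmt := by
  classical
  intro p _ χ ζ s₀ h M A B α β lam hM hMh hlam hα hβ
  set D : Finset (ZMod p) := univ.filter fun s : ZMod p => lam * (h : ℝ) ^ 2 < RR χ ζ h M s with hD
  set F : ZMod p → ℂ := fun t => ∑ x ∈ range h, ∑ y ∈ range h,
    (χ (t + (x : ZMod p) + ζ * (y : ZMod p)) *
      (ZMod.stdAddChar ((t + (x : ZMod p) + ζ * (y : ZMod p)) * s₀) : ℂ)) *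
        ft A α (t + ζ * (y : ZMod p)) * ft B β (t + (x : ZMod p)) with hF
  set Sa : ZMod p → ℝ := fun t => ∑ y ∈ range h, ‖ft A α (t + ζ * (y : ZMod p))‖ ^ 2 with hSa
  set Sb : ZMod p → ℝ := fun t => ∑ x ∈ range h, ‖ft B β (t + (x : ZMod p))‖ ^ 2 with hSb
  set Nb : ZMod p → ℕ := fun t => ((range h).filter fun y : ℕ => t + ζ * (y : ZMod p) ∈ D).card
    with hNb
  have hSa0 : ∀ t, 0 ≤ Sa t := fun t => Finset.sum_nonneg fun y _ => sq_nonneg _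
  have hSb0 : ∀ t, 0 ≤ Sb t := fun t => Finset.sum_nonneg fun y _ => sq_nonneg _
  have hSb1 : ∀ t, Sb t ≤ h * (B.card : ℝ) ^ 2 := by
    intro t
    have h1 : ∀ x ∈ range h, ‖ft B β (t + (x : ZMod p))‖ ^ 2 ≤ (B.card : ℝ) ^ 2 := fun x _ =>
      pow_le_pow_left₀ (norm_nonneg _) (GBS_ft B β hβ _) 2
    refine (Finset.sum_le_sum h1).trans (le_of_eq ?_)
    rw [Finset.sum_const, Finset.card_range, nsmul_eq_mul]
  have hpt : ∀ t, ‖F t‖ ≤ Real.sqrt lam * h * (Real.sqrt (Sa t) * Real.sqrt (Sb t)) +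
      2 * h * Real.sqrt h * (A.card * B.card) * (Nb t : ℝ) := by
    intro t
    have h1 : ‖F t‖ ^ 2 ≤ Sb t * ∑ y ∈ range h, ‖ft A α (t + ζ * (y : ZMod p))‖ ^ 2 *
        RR χ ζ h M (t + ζ * (y : ZMod p)) :=
      hQRR p χ ζ s₀ t h M (fun y => ft A α (t + ζ * (y : ZMod p)))
        (fun x => ft B β (t + (x : ZMod p))) hM
    have h2 : ∑ y ∈ range h, ‖ft A α (t + ζ * (y : ZMod p))‖ ^ 2 *
        RR χ ζ h M (t + ζ * (y : ZMod p)) ≤
        lam * (h : ℝ) ^ 2 * Sa t + 3 * (h : ℝ) ^ 2 * (A.card : ℝ) ^ 2 * (Nb t : ℝ) := by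
      have h3 : ∀ y ∈ range h, ‖ft A α (t + ζ * (y : ZMod p))‖ ^ 2 *
          RR χ ζ h M (t + ζ * (y : ZMod p)) ≤
          lam * (h : ℝ) ^ 2 * ‖ft A α (t + ζ * (y : ZMod p))‖ ^ 2 +
          3 * (h : ℝ) ^ 2 * (A.card : ℝ) ^ 2 * (if t + ζ * (y : ZMod p) ∈ D then 1 else 0) := by
        intro y _
        obtain ⟨hr0, hr1⟩ := hRRB p χ ζ (t + ζ * (y : ZMod p)) h M hM hMh
        have hn : (0 : ℝ) ≤ ‖ft A α (t + ζ * (y : ZMod p))‖ ^ 2 := sq_nonneg _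
        have hn2 : ‖ft A α (t + ζ * (y : ZMod p))‖ ^ 2 ≤ (A.card : ℝ) ^ 2 :=
          pow_le_pow_left₀ (norm_nonneg _) (GBS_ft A α hα _) 2
        by_cases hy : t + ζ * (y : ZMod p) ∈ D
        · rw [if_pos hy, mul_one]
          have h4 : ‖ft A α (t + ζ * (y : ZMod p))‖ ^ 2 * RR χ ζ h M (t + ζ * (y : ZMod p)) ≤
              (A.card : ℝ) ^ 2 * (3 * (h : ℝ) ^ 2) :=
            mul_le_mul hn2 hr1 hr0 (sq_nonneg _)
          have h5 : 0 ≤ lam * (h : ℝ) ^ 2 * ‖ft A α (t + ζ * (y : ZMod p))‖ ^ 2 := by positivity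
          linarith
        · rw [if_neg hy, mul_zero, add_zero]
          have h4 : RR χ ζ h M (t + ζ * (y : ZMod p)) ≤ lam * (h : ℝ) ^ 2 := by
            by_contra hcon
            exact hy (Finset.mem_filter.2 ⟨Finset.mem_univ _, not_le.1 hcon⟩)
          rw [mul_comm]
          exact mul_le_mul_of_nonneg_right h4 hn
      refine (Finset.sum_le_sum h3).trans (le_of_eq ?_)
      rw [Finset.sum_add_distrib, ← Finset.mul_sum, ← Finset.mul_sum, Finset.sum_boole]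
    have h3 : ‖F t‖ ^ 2 ≤ Sb t * (lam * (h : ℝ) ^ 2 * Sa t +
        3 * (h : ℝ) ^ 2 * (A.card : ℝ) ^ 2 * (Nb t : ℝ)) :=
      h1.trans (mul_le_mul_of_nonneg_left h2 (hSb0 t))
    have hNN : (Nb t : ℝ) ≤ (Nb t : ℝ) ^ 2 := by
      have h4 : Nb t ≤ Nb t ^ 2 := Nat.le_self_pow (by norm_num) _
      exact_mod_cast h4
    refine le_of_pow_le_pow_left₀ two_ne_zero (by positivity) (h3.trans ?_)
    have e1 : (Real.sqrt lam * h * (Real.sqrt (Sa t) * Real.sqrt (Sb t))) ^ 2 =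
        lam * (h : ℝ) ^ 2 * (Sa t * Sb t) := by
      rw [mul_pow, mul_pow, mul_pow, Real.sq_sqrt hlam, Real.sq_sqrt (hSa0 t),
        Real.sq_sqrt (hSb0 t)]
    have e2 : (2 * h * Real.sqrt h * (A.card * B.card) * (Nb t : ℝ)) ^ 2 =
        4 * (h : ℝ) ^ 2 * h * ((A.card : ℝ) ^ 2 * (B.card : ℝ) ^ 2) * (Nb t : ℝ) ^ 2 := by
      rw [mul_pow, mul_pow, mul_pow, mul_pow, mul_pow, Real.sq_sqrt (Nat.cast_nonneg h)]
      ring
    have e3 : 0 ≤ (Real.sqrt lam * h * (Real.sqrt (Sa t) * Real.sqrt (Sb t))) *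
        (2 * h * Real.sqrt h * (A.card * B.card) * (Nb t : ℝ)) := by positivity
    have e4 : Sb t * (3 * (h : ℝ) ^ 2 * (A.card : ℝ) ^ 2 * (Nb t : ℝ)) ≤
        4 * (h : ℝ) ^ 2 * h * ((A.card : ℝ) ^ 2 * (B.card : ℝ) ^ 2) * (Nb t : ℝ) ^ 2 := by
      have e5 : Sb t * (3 * (h : ℝ) ^ 2 * (A.card : ℝ) ^ 2 * (Nb t : ℝ)) ≤
          (h * (B.card : ℝ) ^ 2) * (3 * (h : ℝ) ^ 2 * (A.card : ℝ) ^ 2 * (Nb t : ℝ) ^ 2) := by
        refine mul_le_mul (hSb1 t) ?_ (by positivity) (by positivity)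
        exact mul_le_mul_of_nonneg_left hNN (by positivity)
      refine e5.trans ?_
      have e6 : 0 ≤ (h : ℝ) ^ 2 * h * ((A.card : ℝ) ^ 2 * (B.card : ℝ) ^ 2) * (Nb t : ℝ) ^ 2 := by
        positivity
      nlinarith
    have e7 : (Real.sqrt lam * h * (Real.sqrt (Sa t) * Real.sqrt (Sb t)) +
        2 * h * Real.sqrt h * (A.card * B.card) * (Nb t : ℝ)) ^ 2 =
        (Real.sqrt lam * h * (Real.sqrt (Sa t) * Real.sqrt (Sb t))) ^ 2 +
        (2 * h * Real.sqrt h * (A.card * B.card) * (Nb t : ℝ)) ^ 2 +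
        2 * ((Real.sqrt lam * h * (Real.sqrt (Sa t) * Real.sqrt (Sb t))) *
        (2 * h * Real.sqrt h * (A.card * B.card) * (Nb t : ℝ))) := by ring
    rw [e7, e1, e2]
    have e8 : Sb t * (lam * (h : ℝ) ^ 2 * Sa t + 3 * (h : ℝ) ^ 2 * (A.card : ℝ) ^ 2 * (Nb t : ℝ)) =
        lam * (h : ℝ) ^ 2 * (Sa t * Sb t) +
        Sb t * (3 * (h : ℝ) ^ 2 * (A.card : ℝ) ^ 2 * (Nb t : ℝ)) := by ring
    rw [e8]
    linarith
  have hsum : ∑ t : ZMod p, ‖F t‖ ≤ Real.sqrt lam * h * ∑ t : ZMod p,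
      (Real.sqrt (Sa t) * Real.sqrt (Sb t)) +
      2 * h * Real.sqrt h * (A.card * B.card) * ∑ t : ZMod p, (Nb t : ℝ) := by
    refine (Finset.sum_le_sum fun t _ => hpt t).trans (le_of_eq ?_)
    rw [Finset.sum_add_distrib, ← Finset.mul_sum, ← Finset.mul_sum]
  refine hsum.trans ?_
  have hNbs : ∑ t : ZMod p, (Nb t : ℝ) = h * D.card :=
    GBS_bad D h fun y => ζ * (y : ZMod p)
  have hc : ∑ t : ZMod p, (Real.sqrt (Sa t) * Real.sqrt (Sb t)) ≤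
      h * (p * Real.sqrt (A.card * B.card)) := by
    refine (Real.sum_sqrt_mul_sqrt_le _ hSa0 hSb0).trans ?_
    have h1 : ∑ t : ZMod p, Sa t ≤ (h : ℝ) * (p * A.card) :=
      GBS_sum hPLN A α hα h fun y => ζ * (y : ZMod p)
    have h2 : ∑ t : ZMod p, Sb t ≤ (h : ℝ) * (p * B.card) :=
      GBS_sum hPLN B β hβ h fun y => (y : ZMod p)
    have h3 := mul_le_mul (Real.sqrt_le_sqrt h1) (Real.sqrt_le_sqrt h2) (Real.sqrt_nonneg _)
      (Real.sqrt_nonneg _)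
    refine h3.trans (le_of_eq ?_)
    rw [← Real.sqrt_mul (by positivity)]
    have e1 : (h : ℝ) * (p * A.card) * ((h : ℝ) * (p * B.card)) =
        ((h : ℝ) * p) ^ 2 * (A.card * B.card) := by ring
    rw [e1, Real.sqrt_mul (by positivity), Real.sqrt_sq (by positivity)]
    ring
  rw [hNbs]
  refine add_le_add ?_ (le_of_eq ?_)
  · refine (mul_le_mul_of_nonneg_left hc (by positivity)).trans (le_of_eq ?_)
    ring
  · ring

end Pool.Agent.SPI
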